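import Mathlib

set_option autoImplicit false
set_option maxHeartbeats 400000

namespace Pool.Agent.Results.MP_f75ac6_al.NoMaximal

/-- The class of semigroups satisfying every identical inclusion `(u, V)` of `A`. -/
def Models (A : Set (FreeSemigroup ℕ × Set (FreeSemigroup ℕ))) : Set Semigrp.{0} :=
  {S | ∀ I ∈ A, ∀ φ : FreeSemigroup ℕ →ₙ* S, ∃ v ∈ I.2, φ I.1 = φ v}

/-- Inclusive varieties. -/
def IsInclusiveVariety (K : Set Semigrp.{0}) : Prop :=
  ∃ A, (∀ I ∈ A, I.2.Nonempty) ∧ K = Models A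

/-- Elementary inclusive varieties. -/
def IsElementary (K : Set Semigrp.{0}) : Prop :=
  ∃ A, (∀ I ∈ A, I.2.Nonempty ∧ I.2.Finite) ∧ K = Models A

def code : List ℕ → ℕ
  | [] => 0
  | i :: l => 2 ^ i * (2 * code l + 1)

lemma code_inj : Function.Injective code := by
  intro l
  induction l with
  | nil =>
    intro l' h
    cases l' with
    | nil => rfl
    | cons j l' => simp [code] at h
  | cons i l ih =>
    intro l' h
    cases l' with
    | nil => simp [code] at h
    | cons j l' =>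
      simp only [code] at h
      have h1 : i = j := by
        rcases lt_trichotomy i j with h2 | h2 | h2
        · obtain ⟨k, rfl⟩ := Nat.exists_eq_add_of_lt h2
          rw [add_assoc, pow_add, mul_assoc, Nat.mul_right_inj (by positivity), pow_succ] at h
          have := congrArg (· % 2) h
          simp [Nat.mul_mod, Nat.add_mod] at this
        · exact h2
        · obtain ⟨k, rfl⟩ := Nat.exists_eq_add_of_lt h2
          rw [add_assoc, pow_add, mul_assoc, Nat.mul_right_inj (by positivity), pow_succ] at h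
          have := congrArg (· % 2) h
          simp [Nat.mul_mod, Nat.add_mod] at this
      subst h1
      rw [Nat.mul_right_inj (by positivity)] at h
      rw [ih (by omega : code l = code l')]

def cd (w : FreeSemigroup ℕ) : ℕ := code (w.head :: w.tail)

lemma cd_inj : Function.Injective cd := fun v w h => by
  have := code_inj h
  ext1 <;> simp_all

noncomputable def aff (N : ℕ) (i : ℕ) : Equiv.Perm (ZMod (2 * N + 1)) :=
  ((ZMod.unitOfCoprime 2 (by simp : Nat.Coprime 2 (2 * N + 1))) ^ (i + 1)).mulLeft.trans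
    (Equiv.addRight (2 ^ i))

lemma aff_lift (N : ℕ) (w : FreeSemigroup ℕ) (l : List ℕ) :
    FreeSemigroup.lift (aff N) w (code l) = (code (w.head :: w.tail ++ l) : ℕ) := by
  induction w generalizing l with
  | ih1 i => simp [aff, code]; ring
  | ih2 i w h1 h2 =>
    rw [map_mul, Equiv.Perm.mul_apply, h2, h1]
    simp

def NC (L : ℕ) : Con (FreeSemigroup ℕ) where
  r v w := v = w ∨ (L < v.length ∧ L < w.length)
  iseqv := ⟨fun _ => Or.inl rfl, fun h => by grind, fun h h' => by grind⟩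
  mul' := fun h h' => by
    simp only [FreeSemigroup.length_mul]
    grind

lemma rep (L : ℕ) (φ : FreeSemigroup ℕ →ₙ* (NC L).Quotient) (w : FreeSemigroup ℕ) :
    ∃ r : FreeSemigroup ℕ, φ w = r ∧ w.length ≤ r.length := by
  induction w with
  | ih1 i =>
    obtain ⟨r, hr⟩ := Quotient.exists_rep (φ (.of i))
    exact ⟨r, hr.symm, by simp [FreeSemigroup.length]⟩
  | ih2 i w h1 h2 =>
    obtain ⟨r, h3, h4⟩ := h1
    obtain ⟨s, h5, h6⟩ := h2
    exact ⟨r * s, by rw [map_mul, h3, h5]; rfl, by simp only [FreeSemigroup.length_mul]; omega⟩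

lemma len_pos (w : FreeSemigroup ℕ) : 0 < w.length := by simp [FreeSemigroup.length]

lemma nontriv (A : Set (FreeSemigroup ℕ × Set (FreeSemigroup ℕ))) (h : Models A ≠ Set.univ) :
    ∃ I ∈ A, I.1 ∉ I.2 := by
  by_contra h1
  push Not at h1
  exact h (Set.eq_univ_of_forall fun S I hI φ => ⟨_, h1 I hI, rfl⟩)

lemma nonel (w : FreeSemigroup ℕ) : ¬ IsElementary (Models {(w, {w}ᶜ)}) := by
  rintro ⟨A, h1, h2⟩
  obtain ⟨I, hI, h3⟩ := nontriv A (by
    intro h
    have : Semigrp.of (FreeSemigroup ℕ) ∈ Models {(w, {w}ᶜ)} := by rw [h2, h]; trivial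
    obtain ⟨v, hv, h4⟩ := this _ rfl (MulHom.id _)
    exact hv (h4.symm))
  obtain ⟨N, hN⟩ := (((h1 I hI).2.insert I.1).image cd).bddAbove
  have h4 : Semigrp.of (Equiv.Perm (ZMod (2 * N + 1))) ∈ Models {(w, {w}ᶜ)} := by
    rintro _ rfl φ
    have h5 : ∀ k : ℕ, ∃ v : FreeSemigroup ℕ, w.length + k ≤ v.length ∧
        φ v = (φ w : Equiv.Perm (ZMod (2 * N + 1))) ^ (k + 1) := by
      intro k
      induction k with
      | zero => exact ⟨w, le_rfl, by simp⟩
      | succ k ih =>
        obtain ⟨v, h6, h7⟩ := ih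
        refine ⟨v * w, ?_, by rw [map_mul, h7, ← pow_succ]⟩
        have := len_pos w
        simp only [FreeSemigroup.length_mul]; omega
    obtain ⟨v, h6, h7⟩ := h5 (orderOf (φ w : Equiv.Perm (ZMod (2 * N + 1))))
    refine ⟨v, ?_, by rw [h7, pow_succ, pow_orderOf_eq_one, one_mul]⟩
    rintro rfl
    have := orderOf_pos (φ v : Equiv.Perm (ZMod (2 * N + 1)))
    omega
  rw [h2] at h4
  obtain ⟨v, hv, h5⟩ := h4 I hI (FreeSemigroup.lift (aff N))
  have h6 := aff_lift N v []
  have h7 := aff_lift N I.1 []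
  have h5' : FreeSemigroup.lift (aff N) I.1 = FreeSemigroup.lift (aff N) v := h5
  rw [h5', h6, List.append_nil, List.append_nil, ZMod.natCast_eq_natCast_iff'] at h7
  have h8 : cd v ≤ N := hN ⟨v, Or.inr hv, rfl⟩
  have h9 : cd I.1 ≤ N := hN ⟨I.1, Or.inl rfl, rfl⟩
  unfold cd at h8 h9
  rw [Nat.mod_eq_of_lt (by omega), Nat.mod_eq_of_lt (by omega)] at h7
  exact h3 (cd_inj h7 ▸ hv)

theorem result (M : Set Semigrp.{0}) (h1 : IsInclusiveVariety M) (h2 : ¬ IsElementary M) :
    ∃ M' : Set Semigrp.{0}, IsInclusiveVariety M' ∧ M ⊂ M' ∧ ¬ IsElementary M' := by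
  obtain ⟨A, -, rfl⟩ := h1
  obtain ⟨⟨u, V⟩, hI, h3⟩ := nontriv A fun h => h2 ⟨∅, by simp, by rw [h]; ext; simp [Models]⟩
  have hl : ∀ w : FreeSemigroup ℕ, w * w ≠ w := fun w h => by
    have := congrArg FreeSemigroup.length h
    have := len_pos w
    simp only [FreeSemigroup.length_mul] at *
    omega
  refine ⟨Models {(u * u, {u * u}ᶜ)}, ⟨_, ?_, rfl⟩, ⟨?_, fun h => ?_⟩, nonel _⟩
  · rintro _ rfl
    exact ⟨_, hl _⟩
  · rintro S hS _ rfl φ
    obtain ⟨v, hv, h4⟩ := hS _ hI φ
    refine ⟨v * u, fun h5 => h3 ?_, by rw [map_mul, map_mul, h4]⟩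
    have h6 : v * u = u * u := h5
    have : v = u := by
      have h7 := congrArg FreeSemigroup.head h6
      have h8 := congrArg FreeSemigroup.tail h6
      ext1
      · simpa using h7
      · simpa using h8
    exact this ▸ hv
  · have h4 : Semigrp.of (NC u.length).Quotient ∈ Models {(u * u, {u * u}ᶜ)} := by
      rintro _ rfl φ
      obtain ⟨r, h5, h6⟩ := rep _ φ (u * u)
      refine ⟨u * u * (u * u), hl _, ?_⟩
      have := len_pos u
      rw [map_mul φ (u * u), h5]
      simp only [FreeSemigroup.length_mul] at h6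
      exact (Con.eq _).mpr (Or.inr ⟨by omega, by simp only [FreeSemigroup.length_mul]; omega⟩)
    obtain ⟨v, hv, h5⟩ := h h4 _ hI (NC u.length).mkMulHom
    rcases (Con.eq _).mp h5 with h6 | h6
    · exact h3 (h6 ▸ hv)
    · exact lt_irrefl _ h6.1

end Pool.Agent.Results.MP_f75ac6_al.NoMaximal
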